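import Pool.Agent.Run7.h527.TP.Ex
import Pool.Agent.Results.MP_a95293_nt.MultiplicativeValues

/-!
# The `n`-term abc conjecture for tuples with a divisor of the product near aliquot sums and arithmetic derivatives

Let `g(m)` be the sum of the proper divisors of `m`, the cototient `m - φ(m)`, the arithmetic derivative `m'` (with `p' = 1`
for primes and Leibniz' rule), or any positive combination `α m + β f(m)` with `f = σ`, `φ` or the arithmetic derivative. Let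
`G` have steps bounded below by a positive constant and growth at most `v^d`. Let `n ≥ 3`, `0 ≤ θ < τ ≤ 1` and `A > 0`. There
is `M` (depending on `n`, `d`, `θ`, `τ`, `A`) such that for all `m ≤ N` which have two prime factors `p ≠ q`, not dividing
`m / (p q) ≥ 2`, with `p q ≥ m^τ`, but at most `N^(1 - δ)` of them, EVERY admissible `n`-tuple `x`, for which `x_1 ⋯ x_n` is
divisible by an integer `t` with `|t - G (g m)| ≤ g(m)^θ` and `max |x_j| ≤ t ^ A`, satisfies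
`max |x_j| ≤ rad (x_1 ⋯ x_n) ^ M`. For a given `M` this holds if `d A (1 - 1 / binom(n, ⌊n/2⌋)) / M + θ < τ`, and for the
tuples of pairwise coprime integers if `d A (1 - 1 / n) / M + θ < τ`. For small `τ` nearly all integers `m` have such primes.

Proof. Write `m = k p q`. Then `g(m) = a p q + b (p + q) + c` with integers `a ≠ 0`, `b`, `c` which depend on `k` only, and
`(a p + b) (a q + b) = a g(m) + b² - a c`. So for given `k ≤ N^(1 - τ)` every value is taken for at most `N^ε` pairs `p`, `q`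
(the tool `Run7/h527/TP`), and the size of the exceptional set is bounded by the starting theorem `FewExceptions`.
-/

set_option autoImplicit false

open Finset

namespace Pool.Agent.Results.MP_a95293_nt.AliquotSums

open Pool.Agent.N733.TG (Expanding expanding_pow)
open DivisorsInWindows (Admissible rad height Good GoodCoprime κ_nonneg hcount hcount_coprime)
open Run7.h527.TP (Bil Two win_nat aliquot cototient deriv sig comb)

/-- **The `n`-term abc conjecture near the values of functions which are bilinear in two large primes.** Let `g` be of the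
class `Bil`, let `G` have steps `≥ a > 0` and growth at most `v^d`. Let `n ≥ 3`, `0 ≤ θ < τ ≤ 1` and `A > 0`. For all `m ≤ N`
with `Two τ m` but at most `N^(1 - δ)`,
(1) EVERY integer `t` with `|t - G (g m)| ≤ g(m)^θ` is `Good n A M`, with some `M > 0` depending only on `n`, `d`, `θ`, `τ`,
`A`: all admissible `x` with `t ∣ x_1 ⋯ x_n` and `max |x_j| ≤ t ^ A` satisfy `max |x_j| ≤ rad (x_1 ⋯ x_n) ^ M`;
(2) the same for a given `M > 0` with `d A (1 - 1 / binom(n, ⌊n/2⌋)) / M + θ < τ`;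
(3) for the tuples of pairwise coprime integers this holds for a given `M > 0` with `d A (1 - 1 / n) / M + θ < τ`.
The sum of the proper divisors, the cototient, the arithmetic derivative and their positive combinations with the identity
are examples of such functions `g`, and `α v^d` with `α > 0`, `d ≥ 1` is an example of `G`. -/
theorem result (n : ℕ) (hn : 3 ≤ n) :
    (∀ d θ A τ : ℝ, 1 ≤ d → 0 ≤ θ → θ < τ → τ ≤ 1 → 0 < A → ∃ M : ℝ, 0 < M ∧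
      ∀ G : ℕ → ℝ, Expanding G d → ∀ g : ℕ → ℕ, Bil g → ∃ δ : ℝ, 0 < δ ∧ ∃ N₀ : ℕ, ∀ N : ℕ, N₀ ≤ N →
        ({m : ℕ | 1 ≤ m ∧ m ≤ N ∧ Two τ m ∧
          ¬ ∀ t : ℕ, |(t : ℝ) - G (g m)| ≤ (g m : ℝ) ^ θ → Good n A M t}.ncard : ℝ) ≤ (N : ℝ) ^ (1 - δ)) ∧
    (∀ d θ A M τ : ℝ, 0 ≤ θ → 0 < A → 0 < M → d * (A * ((1 - 1 / (n.choose (n / 2) : ℝ)) / M)) + θ < τ → τ ≤ 1 →
      ∀ G : ℕ → ℝ, Expanding G d → ∀ g : ℕ → ℕ, Bil g → ∃ δ : ℝ, 0 < δ ∧ ∃ N₀ : ℕ, ∀ N : ℕ, N₀ ≤ N →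
        ({m : ℕ | 1 ≤ m ∧ m ≤ N ∧ Two τ m ∧
          ¬ ∀ t : ℕ, |(t : ℝ) - G (g m)| ≤ (g m : ℝ) ^ θ → Good n A M t}.ncard : ℝ) ≤ (N : ℝ) ^ (1 - δ)) ∧
    (∀ d θ A M τ : ℝ, 0 ≤ θ → 0 < A → 0 < M → d * (A * ((1 - 1 / (n : ℝ)) / M)) + θ < τ → τ ≤ 1 →
      ∀ G : ℕ → ℝ, Expanding G d → ∀ g : ℕ → ℕ, Bil g → ∃ δ : ℝ, 0 < δ ∧ ∃ N₀ : ℕ, ∀ N : ℕ, N₀ ≤ N →
        ({m : ℕ | 1 ≤ m ∧ m ≤ N ∧ Two τ m ∧
          ¬ ∀ t : ℕ, |(t : ℝ) - G (g m)| ≤ (g m : ℝ) ^ θ → GoodCoprime n A M t}.ncard : ℝ) ≤ (N : ℝ) ^ (1 - δ)) ∧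
    (Bil aliquot ∧ Bil cototient ∧ Bil deriv ∧
      (∀ α β : ℤ, (∀ m : ℕ, 2 ≤ m → 0 < α * m + β * sig m) → Bil (comb α β sig)) ∧
      (∀ α β : ℤ, (∀ m : ℕ, 2 ≤ m → 0 < α * m + β * Nat.totient m) → Bil (comb α β Nat.totient)) ∧
      ∀ α β : ℤ, (∀ m : ℕ, 2 ≤ m → 0 < α * m + β * deriv m) → Bil (comb α β deriv)) ∧
    ∀ α d : ℝ, 0 < α → 1 ≤ d → Expanding (fun v => α * (v : ℝ) ^ d) d := by
  classical
  have two : ∀ d θ A M τ : ℝ, 0 ≤ θ → 0 < A → 0 < M →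
      d * (A * ((1 - 1 / (n.choose (n / 2) : ℝ)) / M)) + θ < τ → τ ≤ 1 →
      ∀ G : ℕ → ℝ, Expanding G d → ∀ g : ℕ → ℕ, Bil g → ∃ δ : ℝ, 0 < δ ∧ ∃ N₀ : ℕ, ∀ N : ℕ, N₀ ≤ N →
        ({m : ℕ | 1 ≤ m ∧ m ≤ N ∧ Two τ m ∧
          ¬ ∀ t : ℕ, |(t : ℝ) - G (g m)| ≤ (g m : ℝ) ^ θ → Good n A M t}.ncard : ℝ) ≤ (N : ℝ) ^ (1 - δ) := by
    intro d θ A M τ hθ hA hM h1 hτ G hG g hg
    obtain ⟨δ, hδ, N₀, hN₀⟩ := win_nat
      (Pool.Agent.R559.NP.DivBad (n := n) (fun x : Fin n → ℤ => Admissible x ∧ ¬ height x ≤ (rad x : ℝ) ^ M) A) hg hG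
      (s := A * ((1 - 1 / (n.choose (n / 2) : ℝ)) / M)) (κ := θ)
      (mul_nonneg hA.le (div_nonneg (κ_nonneg n) hM.le)) hθ h1 hτ
      (Pool.Agent.R559.NP.count_div (fun x hx => hx.1.ne_zero hn) hA (fun δ hδ => hcount hn hM δ hδ))
    refine ⟨δ, hδ, N₀, fun N hN => le_trans ?_ (hN₀ N hN)⟩
    have hsub : {m : ℕ | 1 ≤ m ∧ m ≤ N ∧ Two τ m ∧
        ¬ ∀ t : ℕ, |(t : ℝ) - G (g m)| ≤ (g m : ℝ) ^ θ → Good n A M t} ⊆
        {m : ℕ | 1 ≤ m ∧ m ≤ N ∧ Two τ m ∧ ∃ t : ℕ, (t = 0 ∨ t ∈ Pool.Agent.R559.NP.DivBad (n := n)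
          (fun x : Fin n → ℤ => Admissible x ∧ ¬ height x ≤ (rad x : ℝ) ^ M) A) ∧
          |(t : ℝ) - G (g m)| ≤ (g m : ℝ) ^ θ} := by
      rintro m ⟨e1, e2, e2', e3⟩
      unfold Good at e3
      push Not at e3
      obtain ⟨t, ht, x, hx, hd, hh, hr⟩ := e3
      exact ⟨e1, e2, e2', t, Or.inr ⟨x, ⟨hx, not_le.2 hr⟩, hh, hd⟩, ht⟩
    exact_mod_cast Set.ncard_le_ncard hsub ((Set.finite_Icc 1 N).subset fun m hm => ⟨hm.1, hm.2.1⟩)
  refine ⟨fun d θ A τ hd hθ hθ1 hτ hA => ?_, two, ?_, Run7.h527.TP.examples, fun α d hα hd => expanding_pow hα hd⟩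
  · have hθ0 : 0 < τ - θ := by linarith
    have hM : 0 < 2 * d * A / (τ - θ) := by positivity
    refine ⟨2 * d * A / (τ - θ), hM, two d θ A _ τ hθ hA hM ?_ hτ⟩
    have h2 : 1 - 1 / (n.choose (n / 2) : ℝ) ≤ 1 := by
      have : 0 ≤ 1 / (n.choose (n / 2) : ℝ) := by positivity
      linarith
    have h3 : d * (A * ((1 - 1 / (n.choose (n / 2) : ℝ)) / (2 * d * A / (τ - θ)))) =
        (1 - 1 / (n.choose (n / 2) : ℝ)) * ((τ - θ) / 2) := by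
      field_simp
    rw [h3]
    nlinarith
  · intro d θ A M τ hθ hA hM h1 hτ G hG g hg
    have hs : 0 ≤ (1 - 1 / (n : ℝ)) / M := by
      have h3 : (3 : ℝ) ≤ n := by exact_mod_cast hn
      refine div_nonneg ?_ hM.le
      rw [sub_nonneg, div_le_one (by linarith)]
      linarith
    obtain ⟨δ, hδ, N₀, hN₀⟩ := win_nat
      (Pool.Agent.R559.NP.DivBad (n := n) (fun x : Fin n → ℤ => (Admissible x ∧ ¬ height x ≤ (rad x : ℝ) ^ M) ∧
        ∀ i j, i ≠ j → IsCoprime (x i) (x j)) A) hg hG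
      (s := A * ((1 - 1 / (n : ℝ)) / M)) (κ := θ) (mul_nonneg hA.le hs) hθ h1 hτ
      (Pool.Agent.R559.NP.count_div (fun x hx => hx.1.1.ne_zero hn) hA (fun δ hδ => hcount_coprime hn hM δ hδ))
    refine ⟨δ, hδ, N₀, fun N hN => le_trans ?_ (hN₀ N hN)⟩
    have hsub : {m : ℕ | 1 ≤ m ∧ m ≤ N ∧ Two τ m ∧
        ¬ ∀ t : ℕ, |(t : ℝ) - G (g m)| ≤ (g m : ℝ) ^ θ → GoodCoprime n A M t} ⊆
        {m : ℕ | 1 ≤ m ∧ m ≤ N ∧ Two τ m ∧ ∃ t : ℕ, (t = 0 ∨ t ∈ Pool.Agent.R559.NP.DivBad (n := n)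
          (fun x : Fin n → ℤ => (Admissible x ∧ ¬ height x ≤ (rad x : ℝ) ^ M) ∧
            ∀ i j, i ≠ j → IsCoprime (x i) (x j)) A) ∧
          |(t : ℝ) - G (g m)| ≤ (g m : ℝ) ^ θ} := by
      rintro m ⟨e1, e2, e2', e3⟩
      unfold GoodCoprime at e3
      push Not at e3
      obtain ⟨t, ht, x, hx, hco, hd, hh, hr⟩ := e3
      exact ⟨e1, e2, e2', t, Or.inr ⟨x, ⟨⟨hx, not_le.2 hr⟩, hco⟩, hh, hd⟩, ht⟩
    exact_mod_cast Set.ncard_le_ncard hsub ((Set.finite_Icc 1 N).subset fun m hm => ⟨hm.1, hm.2.1⟩)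

end Pool.Agent.Results.MP_a95293_nt.AliquotSums
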