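import Mathlib
import Pool.Agent.Run7.h720.NMain

set_option autoImplicit false

/-!
# The n-term abc inequality for sparse integers, with the exponent of function fields

Let `n ≥ 3`, let `K` be a number field and `Γ` a finitely generated subgroup of its multiplicative
group. We consider the admissible `n`-tuples `x` of integers (greatest common divisor 1, sum zero, no
vanishing proper subsums) such that the `x_i` are short: sums of `r` terms `c * γ` with `γ` in `Γ` and
`c` in `K` of height at most `B * H ^ δ`, where `H = max |x_i|`. For every short integer `ρ` and every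
integer `τ` such that the product of the `x_i` divides `ρ ^ m * τ` we prove

  `max |x_i| ≤ C * (|ρ| * |τ|) ^ ((n - 1) * (n - 2) / 2 + ε)`

if `δ` is small enough. Here `ρ` takes the place of the radical (the case of a short multiple `ρ` of
the radical is `τ = 1`), and `τ` is an arbitrary cofactor.

For the proof, the tuple is represented by polynomials in independent germs of units over the field of
negligible germs. One adds the entries by means of minimal linear relations: with `a` new
entries, the Wronskian of these entries shows that the height grows at most by `a * (a - 1) / 2` times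
the number of zeros, as in the function field case.
-/

namespace Pool.Agent.Results.MP_a95293_nt.SparseTuplesAnyCofactor

/-- The integer `z` is a sum of `r` terms `c * γ`, where `γ` is in `Γ` and `c` is an element of `K` of
(multiplicative) height at most `R`. -/
def IsShort {K : Type} [Field K] [NumberField K] (Γ : Subgroup Kˣ) (r : ℕ) (R : ℝ) (z : ℤ) : Prop :=
  ∃ (c : Fin r → K) (γ : Fin r → Kˣ), (∀ j, γ j ∈ Γ) ∧ (∀ j, Height.mulHeight₁ (c j) ≤ R) ∧
    (z : K) = ∑ j, c j * (γ j : K)

/-- The admissible tuples of the problem. -/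
def Admissible {n : ℕ} (x : Fin n → ℤ) : Prop :=
  Finset.univ.gcd x = 1 ∧ ∑ i, x i = 0 ∧
    ∀ U : Finset (Fin n), U.Nonempty → U ≠ Finset.univ → ∑ i ∈ U, x i ≠ 0

/-- The maximum of the absolute values of the entries. -/
noncomputable def size {n : ℕ} (x : Fin n → ℤ) : ℝ := ⨆ i, |(x i : ℝ)|

/-- **Main theorem.** Let `n ≥ 3`. For every number field `K`, every finitely generated subgroup `Γ`
of its multiplicative group, all natural numbers `r`, `m`, every real `B` and every `ε > 0` there are
`δ > 0` and `C` with the following property. Let `x` be an admissible `n`-tuple of integers and let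
`ρ`, `τ` be nonzero integers such that the product of the `x i` divides `ρ ^ m * τ`. If the `x i` and
`ρ` are sums of `r` terms `c * γ` with `γ` in `Γ` and `c` in `K` of height at most
`B * (max |x i|) ^ δ`, then `max |x i| ≤ C * |ρ * τ| ^ ((n - 1) * (n - 2) / 2 + ε)`. -/
theorem result (n : ℕ) (hn : 3 ≤ n) (K : Type) [Field K] [NumberField K] (Γ : Subgroup Kˣ)
    (hΓ : Γ.FG) (r m : ℕ) (B ε : ℝ) (hε : 0 < ε) :
    ∃ δ C : ℝ, 0 < δ ∧ ∀ (x : Fin n → ℤ) (ρ τ : ℤ), Admissible x → ρ ≠ 0 → τ ≠ 0 →
      ∏ i, x i ∣ ρ ^ m * τ → (∀ i, IsShort Γ r (B * size x ^ δ) (x i)) →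
      IsShort Γ r (B * size x ^ δ) ρ →
      size x ≤ C * |((ρ * τ : ℤ) : ℝ)| ^ (((n : ℝ) - 1) * ((n : ℝ) - 2) / 2 + ε) := by
  obtain ⟨δ, C, hδ, h⟩ := Pool.Agent.Run7.h720.nterm_int K Γ hΓ n r m hn B ε hε
  refine ⟨δ, C, hδ, fun x ρ τ hx hρ hτ hd hs1 hs2 => ?_⟩
  have : Nonempty (Fin n) := ⟨⟨0, by omega⟩⟩
  obtain ⟨j, hj⟩ := Finite.exists_max fun i => |(x i : ℝ)|
  have hb : BddAbove (Set.range fun i => |(x i : ℝ)|) := Set.finite_range _ |>.bddAbove
  have h1 := h x ρ τ (size x) (fun i => le_ciSup hb i)
    ⟨j, le_antisymm (le_ciSup hb j) (ciSup_le hj)⟩ hx hρ hτ hd hs1 hs2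
  have h2 : (((n - 1) * (n - 2) / 2 : ℕ) : ℝ) = ((n : ℝ) - 1) * ((n : ℝ) - 2) / 2 := by
    have h3 : 2 * ((n - 1) * (n - 2) / 2) = (n - 1) * (n - 2) := by
      have h4 := Nat.even_mul_pred_self (n - 1)
      rw [Nat.sub_sub] at h4
      exact Nat.mul_div_cancel' h4.two_dvd
    have h4 : (2 : ℝ) * (((n - 1) * (n - 2) / 2 : ℕ) : ℝ) = ((n : ℝ) - 1) * ((n : ℝ) - 2) := by
      have h5 : (((2 * ((n - 1) * (n - 2) / 2) : ℕ)) : ℝ) = (((n - 1) * (n - 2) : ℕ) : ℝ) := by
        rw [h3]
      rw [Nat.cast_mul, Nat.cast_mul, Nat.cast_sub (by omega), Nat.cast_sub (by omega)] at h5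
      push_cast at h5
      exact h5
    linarith
  rw [h2, ← abs_mul] at h1
  push_cast
  exact h1

end Pool.Agent.Results.MP_a95293_nt.SparseTuplesAnyCofactor
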