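import Mathlib
import Pool.Agent.Run7.h585.NF.RatC

/-!
# The anatomy of the exceptional triples, `n = 3`

Let `n = 3` and `1/3 < M < 1/2`. The exceptional triples are the admissible triples `x` with `max |x_i| ≤ B` and
`max |x_i| ≥ rad (x_1 x_2 x_3) ^ M`; their number is `B ^ (1/M - 1 + o(1))` (for almost all admissible triples
`rad (x_1 x_2 x_3)` is about `(max |x_i|) ^ 3`). For every `ε > 0` all of them but a proportion of at most
`exp (-δ √(log B / log log B))` look alike. Let `L = log B` and `κ = 3 - 1/M`: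

* `|x_i| ≥ B ^ (1 - ε)` for all three coordinates;
* `rad (x_i) = B ^ (1/(3M) ± ε)` for all three coordinates: the defect is shared equally;
* the product of the primes whose squares divide `x_i` is at most `B ^ ε`;
* (shares) the primes up to `L ^ c` contribute the proportion `max (0, 1 - 1/(2c))` to the defect
  `log |x_i| - log rad (x_i) = (κ/3 ± ε) L` of each coordinate: nothing comes from the primes up to `L ^ (1/2)`, and one half
  comes from the primes up to `L = log B`;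
* (law of the prime powers) the sizes `(v_p(x_i) - 1) log p` of the single contributions are distributed like
  `√(2κL/(3 log L))` copies of an exponential random variable with mean `√(κ L log L / 6)`, and they are independent of
  the primes.
-/

set_option autoImplicit false

namespace Pool.Agent.Results.MP_a95293_nt.TypicalTriples

open Finset

/-- the tuples of the problem: coprime integers with sum zero and no vanishing proper subsum -/
def Admissible {n : ℕ} (x : Fin n → ℤ) : Prop :=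
  univ.gcd x = 1 ∧ ∑ i, x i = 0 ∧
    ∀ I : Finset (Fin n), I.Nonempty → I ≠ univ → ∑ i ∈ I, x i ≠ 0

/-- the product of the primes that divide `a` -/
def rad (a : ℤ) : ℕ := ∏ p ∈ a.natAbs.primeFactors, p

/-- `max |x_i|` -/
def height {n : ℕ} (x : Fin n → ℤ) : ℕ := univ.sup fun i => (x i).natAbs

/-- the admissible triples with `max |x_i| ≤ B` and `rad (x_1 x_2 x_3) ^ M ≤ max |x_i|` -/
def Exceptions (M B : ℝ) : Set (Fin 3 → ℤ) :=
  {x | Admissible x ∧ (height x : ℝ) ≤ B ∧ (rad (∏ i, x i) : ℝ) ^ M ≤ height x}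

/-- the product of the primes whose squares divide `a` -/
def multipleRad (a : ℤ) : ℕ := ∏ p ∈ a.natAbs.primeFactors.filter (fun p => p ^ 2 ∣ a.natAbs), p

/-- the sum of `(v_p(a) - 1) log p` over the primes `p ≤ z` dividing `a` -/
noncomputable def excess (z : ℝ) (a : ℤ) : ℝ :=
  ∑ p ∈ a.natAbs.primeFactors.filter (fun p : ℕ => (p : ℝ) ≤ z),
    ((a.natAbs.factorization p : ℝ) - 1) * Real.log p

/-- the number of the primes `p ≤ z` with `p ^ 2 ∣ a` and `(v_p(a) - 1) log p ≥ τ` -/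
noncomputable def excessCount (z τ : ℝ) (a : ℤ) : ℕ :=
  {p : ℕ | p.Prime ∧ (p : ℝ) ≤ z ∧ p ^ 2 ∣ a.natAbs ∧
    τ ≤ ((a.natAbs.factorization p : ℝ) - 1) * Real.log p}.ncard

/-- the number of the prime powers, `√(2κL/(3 log L))` with `L = log B`, `κ = 3 - 1/M` -/
noncomputable def number (M B : ℝ) : ℝ :=
  √(2 * (3 - 1 / M) * Real.log B / (3 * Real.log (Real.log B)))

/-- their mean size, `√(κ L log L / 6)` with `L = log B`, `κ = 3 - 1/M` -/
noncomputable def size (M B : ℝ) : ℝ :=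
  √((3 - 1 / M) * Real.log B * Real.log (Real.log B) / 6)

/-- the proportion of the primes up to `z`, `max (0, 1 - log L / (2 log z))` with `L = log B` -/
noncomputable def part (B z : ℝ) : ℝ := max 0 (1 - Real.log (Real.log B) / (2 * Real.log z))

/-- the typical triples -/
structure Typical (M ε B : ℝ) (x : Fin 3 → ℤ) : Prop where
  sizes : ∀ i, B ^ (1 - ε) ≤ ((x i).natAbs : ℝ)
  radicals : ∀ i, B ^ (1 / (3 * M) - ε) ≤ (rad (x i) : ℝ) ∧ (rad (x i) : ℝ) ≤ B ^ (1 / (3 * M) + ε)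
  multiple : ∀ i, (multipleRad (x i) : ℝ) ≤ B ^ ε
  shares : ∀ i, ∀ z : ℝ, 2 ≤ z →
    |excess z (x i) - part B z * ((3 - 1 / M) / 3 * Real.log B)| ≤ ε * Real.log B
  law : ∀ i, ∀ z t : ℝ, 2 ≤ z → 0 ≤ t →
    |(excessCount z (t * size M B) (x i) : ℝ) - part B z * Real.exp (-t) * number M B| ≤
      ε * number M B

/-- positive coordinates except the last: no vanishing subsum -/
theorem admissible_of_pos {m : ℕ} {x : Fin (m + 2) → ℤ} (h1 : univ.gcd x = 1)
    (h2 : ∑ i, x i = 0) (h3 : ∀ j : Fin (m + 1), 0 < x j.castSucc) : Admissible x := by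
  classical
  refine ⟨h1, h2, fun I hI hI2 => ?_⟩
  have hpos : ∀ J : Finset (Fin (m + 2)), J.Nonempty → Fin.last (m + 1) ∉ J →
      0 < ∑ i ∈ J, x i := by
    intro J hJ hl
    apply sum_pos _ hJ
    intro i hi
    obtain ⟨j, rfl⟩ | h := (Fin.eq_castSucc_or_eq_last i)
    · exact h3 j
    · exact absurd (h ▸ hi) hl
  by_cases hl : Fin.last (m + 1) ∈ I
  · have hc : (Iᶜ).Nonempty := by
      rw [nonempty_iff_ne_empty]
      intro h
      exact hI2 (compl_eq_empty_iff I |>.1 h)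
    have h4 := hpos Iᶜ hc (by rw [mem_compl, not_not]; exact hl)
    have h5 := Finset.sum_add_sum_compl I x
    intro h6
    rw [h6, h2] at h5
    omega
  · exact (hpos I hI hl).ne'

theorem ne_zero {x : Fin 3 → ℤ} (hx : Admissible x) (i : Fin 3) : x i ≠ 0 := by
  have h := hx.2.2 {i} (singleton_nonempty i) (by
    intro h
    have h1 := congrArg Finset.card h
    rw [card_singleton, card_univ, Fintype.card_fin] at h1
    omega)
  simpa using h

theorem fin3 (l : Fin 3) : l = 0 ∨ l = 1 ∨ l = 2 := by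
  revert l
  decide

/-- the six triples -/
def g (σ : Fin 3) (s : Bool) (p : ℕ × ℕ) : Fin 3 → ℤ := fun i =>
  (if s then 1 else -1) * (![![(p.1 : ℤ), p.2, -((p.1 + p.2 : ℕ) : ℤ)],
    ![(p.1 : ℤ), -((p.1 + p.2 : ℕ) : ℤ), p.2], ![-((p.1 + p.2 : ℕ) : ℤ), p.1, p.2]] σ i)

/-- the permutations -/
def perm (σ i : Fin 3) : Fin 3 := ![![0, 1, 2], ![0, 2, 1], ![2, 0, 1]] σ i

open Pool.Agent.Run7.h585.NF.RatB (m3) in
theorem g_abs (σ : Fin 3) (s : Bool) (p : ℕ × ℕ) (i : Fin 3) :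
    (g σ s p i).natAbs = m3 p.1 p.2 (perm σ i) := by
  have h1 : ((if s then 1 else -1 : ℤ)).natAbs = 1 := by cases s <;> rfl
  unfold g
  rw [Int.natAbs_mul, h1, one_mul]
  rcases fin3 σ with rfl | rfl | rfl <;> rcases fin3 i with rfl | rfl | rfl
  · exact Int.natAbs_natCast _
  · exact Int.natAbs_natCast _
  · exact (Int.natAbs_neg _).trans (Int.natAbs_natCast _)
  · exact Int.natAbs_natCast _
  · exact (Int.natAbs_neg _).trans (Int.natAbs_natCast _)
  · exact Int.natAbs_natCast _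
  · exact (Int.natAbs_neg _).trans (Int.natAbs_natCast _)
  · exact Int.natAbs_natCast _
  · exact Int.natAbs_natCast _

theorem g_height (σ : Fin 3) (s : Bool) (p : ℕ × ℕ) : height (g σ s p) = p.1 + p.2 := by
  unfold height
  apply le_antisymm
  · refine Finset.sup_le fun i _ => ?_
    rw [g_abs]
    rcases fin3 (perm σ i) with h | h | h <;> rw [h]
    · exact Nat.le_add_right _ _
    · exact Nat.le_add_left _ _
    · exact le_rfl
  · obtain ⟨i, hi⟩ : ∃ i, perm σ i = 2 := by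
      rcases fin3 σ with rfl | rfl | rfl
      · exact ⟨2, rfl⟩
      · exact ⟨1, rfl⟩
      · exact ⟨0, rfl⟩
    have h1 := Finset.le_sup (f := fun i => (g σ s p i).natAbs) (Finset.mem_univ i)
    refine le_trans (le_of_eq ?_) h1
    show p.1 + p.2 = (g σ s p i).natAbs
    rw [g_abs, hi]
    rfl

theorem g_prod (σ : Fin 3) (s : Bool) (p : ℕ × ℕ) :
    (∏ i, g σ s p i).natAbs = p.1 * p.2 * (p.1 + p.2) := by
  have h1 : (∏ i, g σ s p i).natAbs = ∏ i, (g σ s p i).natAbs := by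
    rw [← Int.natAbsHom_apply, map_prod]
    rfl
  rw [h1, Fin.prod_univ_three, g_abs, g_abs, g_abs]
  rcases fin3 σ with rfl | rfl | rfl
  · rfl
  · show p.1 * (p.1 + p.2) * p.2 = _
    ring
  · show (p.1 + p.2) * p.1 * p.2 = _
    ring

/-- all admissible triples are obtained -/
theorem exists_g {x : Fin 3 → ℤ} (hx : Admissible x) : ∃ (σ : Fin 3) (s : Bool) (p : ℕ × ℕ),
    0 < p.1 ∧ 0 < p.2 ∧ Nat.Coprime p.1 p.2 ∧ g σ s p = x := by
  have h0 := ne_zero hx 0
  have h1 := ne_zero hx 1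
  have h2 := ne_zero hx 2
  have hs := hx.2.1
  rw [Fin.sum_univ_three] at hs
  have key : ∀ (σ : Fin 3) (s : Bool) (p : ℕ × ℕ), g σ s p = x → Nat.Coprime p.1 p.2 := by
    intro σ s p h
    have hd : ∀ i, ((Nat.gcd p.1 p.2 : ℕ) : ℤ) ∣ x i := by
      intro i
      rw [← h, Int.natCast_dvd, g_abs]
      rcases fin3 (perm σ i) with h | h | h <;> rw [h]
      · exact Nat.gcd_dvd_left _ _
      · exact Nat.gcd_dvd_right _ _
      · exact Nat.dvd_add (Nat.gcd_dvd_left _ _) (Nat.gcd_dvd_right _ _)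
    have h3 : ((Nat.gcd p.1 p.2 : ℕ) : ℤ) ∣ univ.gcd x := Finset.dvd_gcd fun i _ => hd i
    rw [hx.1] at h3
    have h4 : Nat.gcd p.1 p.2 ∣ 1 := by exact_mod_cast h3
    exact Nat.dvd_one.1 h4
  have build : ∀ (σ : Fin 3) (s : Bool) (p : ℕ × ℕ), 0 < p.1 → 0 < p.2 → g σ s p 0 = x 0 →
      g σ s p 1 = x 1 → g σ s p 2 = x 2 → ∃ (σ : Fin 3) (s : Bool) (p : ℕ × ℕ),
        0 < p.1 ∧ 0 < p.2 ∧ Nat.Coprime p.1 p.2 ∧ g σ s p = x := by
    intro σ s p h3 h4 h5 h6 h7
    have h8 : g σ s p = x := by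
      funext i
      rcases fin3 i with rfl | rfl | rfl
      · exact h5
      · exact h6
      · exact h7
    exact ⟨σ, s, p, h3, h4, key σ s p h8, h8⟩
  rcases lt_or_gt_of_ne h0 with a0 | a0 <;> rcases lt_or_gt_of_ne h1 with a1 | a1 <;>
    rcases lt_or_gt_of_ne h2 with a2 | a2
  · omega
  · refine build 0 false ((x 0).natAbs, (x 1).natAbs) ?_ ?_ ?_ ?_ ?_
    · show 0 < (x 0).natAbs; omega
    · show 0 < (x 1).natAbs; omega
    · show (-1) * (((x 0).natAbs : ℕ) : ℤ) = x 0; omega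
    · show (-1) * (((x 1).natAbs : ℕ) : ℤ) = x 1; omega
    · show (-1) * (-((((x 0).natAbs + (x 1).natAbs : ℕ)) : ℤ)) = x 2; omega
  · refine build 1 false ((x 0).natAbs, (x 2).natAbs) ?_ ?_ ?_ ?_ ?_
    · show 0 < (x 0).natAbs; omega
    · show 0 < (x 2).natAbs; omega
    · show (-1) * (((x 0).natAbs : ℕ) : ℤ) = x 0; omega
    · show (-1) * (-((((x 0).natAbs + (x 2).natAbs : ℕ)) : ℤ)) = x 1; omega
    · show (-1) * (((x 2).natAbs : ℕ) : ℤ) = x 2; omega
  · refine build 2 true ((x 1).natAbs, (x 2).natAbs) ?_ ?_ ?_ ?_ ?_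
    · show 0 < (x 1).natAbs; omega
    · show 0 < (x 2).natAbs; omega
    · show 1 * (-((((x 1).natAbs + (x 2).natAbs : ℕ)) : ℤ)) = x 0; omega
    · show 1 * (((x 1).natAbs : ℕ) : ℤ) = x 1; omega
    · show 1 * (((x 2).natAbs : ℕ) : ℤ) = x 2; omega
  · refine build 2 false ((x 1).natAbs, (x 2).natAbs) ?_ ?_ ?_ ?_ ?_
    · show 0 < (x 1).natAbs; omega
    · show 0 < (x 2).natAbs; omega
    · show (-1) * (-((((x 1).natAbs + (x 2).natAbs : ℕ)) : ℤ)) = x 0; omega
    · show (-1) * (((x 1).natAbs : ℕ) : ℤ) = x 1; omega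
    · show (-1) * (((x 2).natAbs : ℕ) : ℤ) = x 2; omega
  · refine build 1 true ((x 0).natAbs, (x 2).natAbs) ?_ ?_ ?_ ?_ ?_
    · show 0 < (x 0).natAbs; omega
    · show 0 < (x 2).natAbs; omega
    · show 1 * (((x 0).natAbs : ℕ) : ℤ) = x 0; omega
    · show 1 * (-((((x 0).natAbs + (x 2).natAbs : ℕ)) : ℤ)) = x 1; omega
    · show 1 * (((x 2).natAbs : ℕ) : ℤ) = x 2; omega
  · refine build 0 true ((x 0).natAbs, (x 1).natAbs) ?_ ?_ ?_ ?_ ?_
    · show 0 < (x 0).natAbs; omega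
    · show 0 < (x 1).natAbs; omega
    · show 1 * (((x 0).natAbs : ℕ) : ℤ) = x 0; omega
    · show 1 * (((x 1).natAbs : ℕ) : ℤ) = x 1; omega
    · show 1 * (-((((x 0).natAbs + (x 1).natAbs : ℕ)) : ℤ)) = x 2; omega
  · omega

theorem g_adm {p : ℕ × ℕ} (h1 : 0 < p.1) (h2 : 0 < p.2) (h3 : Nat.Coprime p.1 p.2) :
    Admissible (g 0 true p) := by
  refine admissible_of_pos (m := 1) ?_ ?_ ?_
  · have ha : univ.gcd (g 0 true p) ∣ (p.1 : ℤ) := by
      have := Finset.gcd_dvd (f := g 0 true p) (Finset.mem_univ 0)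
      have e : g 0 true p 0 = (p.1 : ℤ) := one_mul _
      rwa [e] at this
    have hb : univ.gcd (g 0 true p) ∣ (p.2 : ℤ) := by
      have := Finset.gcd_dvd (f := g 0 true p) (Finset.mem_univ 1)
      have e : g 0 true p 1 = (p.2 : ℤ) := one_mul _
      rwa [e] at this
    have hc : IsCoprime (p.1 : ℤ) (p.2 : ℤ) := Nat.isCoprime_iff_coprime.2 h3
    have hu : IsUnit (univ.gcd (g 0 true p)) := hc.isUnit_of_dvd' ha hb
    rw [← Finset.normalize_gcd]
    exact normalize_eq_one.2 hu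
  · rw [Fin.sum_univ_three]
    show 1 * (p.1 : ℤ) + 1 * (p.2 : ℤ) + 1 * (-((p.1 + p.2 : ℕ) : ℤ)) = 0
    push_cast
    ring
  · intro j
    have : j = 0 ∨ j = 1 := by revert j; decide
    rcases this with rfl | rfl
    · show 0 < 1 * (p.1 : ℤ)
      omega
    · show 0 < 1 * (p.2 : ℤ)
      omega

open Pool.Agent.Run7.h585.NF Pool.Agent.Run7.h585.NF.RatB in
theorem typ_of {M κ ε B : ℝ} (hκd : κ = 3 - 1 / M) (hκ : 0 < κ) (hB : 0 < B)
    (hL3 : 3 ≤ Real.log B) (hε : 0 < ε) (hLε : 2 * Real.log 2 / ε ≤ Real.log B) {a b : ℕ}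
    (ha : 0 < a) (hb : 0 < b) (h : AnatN κ (ε / 4) (Real.log B) a b) (σ : Fin 3) (s : Bool) :
    Typical M ε B (g σ s (a, b)) := by
  obtain ⟨h1, h2, h3, h4, h5, h6⟩ := h
  have hM : 1 / (3 * M) = 1 - κ / 3 := by
    rw [hκd]
    rw [one_div, mul_inv]
    ring
  have hL : 0 < Real.log B := by linarith
  have hεL : 0 < ε * Real.log B := by positivity
  rw [div_le_iff₀ hε] at hLε
  have hpow : ∀ t : ℝ, B ^ t = Real.exp (t * Real.log B) := by
    intro t
    rw [Real.rpow_def_of_pos hB, mul_comm]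
  have hrad : ∀ n, (0 : ℝ) < (RatB.rad n : ℝ) := fun n => by exact_mod_cast rad_pos n
  have hsq : ∀ n, (0 : ℝ) < (RatB.sqr n : ℝ) := fun n => by
    have : 0 < RatB.sqr n := Finset.prod_pos fun p hp =>
      (Nat.prime_of_mem_primeFactors (Finset.mem_filter.1 hp).1).pos
    exact_mod_cast this
  refine ⟨fun i => ?_, fun i => ?_, fun i => ?_, fun i z hz => ?_, fun i z t hz ht => ?_⟩
  · rw [g_abs, hpow]
    have h0 : (0 : ℝ) < (m3 a b (perm σ i) : ℕ) := by
      exact_mod_cast Nat.pos_of_ne_zero (m3_ne ha hb _)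
    rw [← Real.le_log_iff_exp_le h0]
    have h7 := h2 (perm σ i)
    linarith [show (1 - ε / 4) * Real.log B = Real.log B - ε * Real.log B / 4 by ring,
      show ε / 4 * Real.log B = ε * Real.log B / 4 by ring,
      show (1 - ε) * Real.log B = Real.log B - ε * Real.log B by ring]
  · have e : TypicalTriples.rad (g σ s (a, b) i) = RatB.rad (m3 a b (perm σ i)) := by
      unfold TypicalTriples.rad RatB.rad
      rw [g_abs]
    have h7 := abs_le.1 (h3 (perm σ i))
    rw [e, hpow, hpow, ← Real.le_log_iff_exp_le (hrad _), ← Real.log_le_iff_le_exp (hrad _), hM]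
    constructor
    · linarith [show (1 - κ / 3 - ε) * Real.log B = (1 - κ / 3) * Real.log B - ε * Real.log B by ring,
        show ε / 4 * Real.log B = ε * Real.log B / 4 by ring]
    · linarith [show (1 - κ / 3 + ε) * Real.log B = (1 - κ / 3) * Real.log B + ε * Real.log B by ring,
        show ε / 4 * Real.log B = ε * Real.log B / 4 by ring]
  · have e : multipleRad (g σ s (a, b) i) = RatB.sqr (m3 a b (perm σ i)) := by
      unfold multipleRad RatB.sqr
      rw [g_abs]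
    rw [e, hpow, ← Real.log_le_iff_le_exp (hsq _)]
    have h7 := h4 (perm σ i)
    linarith [show ε / 4 * Real.log B = ε * Real.log B / 4 by ring]
  · have e : excess z (g σ s (a, b) i) = RatB.exl z (m3 a b (perm σ i)) := by
      unfold excess RatB.exl
      rw [g_abs]
    have e2 : part B z = pr (Real.log B) z := rfl
    have h7 := h5 (perm σ i) z hz
    rw [e, e2, ← hκd]
    linarith [show ε / 4 * Real.log B = ε * Real.log B / 4 by ring]
  · have hlam := lam_pos hκ hL3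
    have e1 : size M B = lam κ (Real.log B) := by
      rw [lam_eq hκ hL3, hκd]
      rfl
    have e2 : part B z = pr (Real.log B) z := rfl
    have e3 : number M B = s1 κ (Real.log B) := by rw [hκd]; rfl
    have h7 := h6 (perm σ i) z (t * lam κ (Real.log B)) hz (by positivity)
    rw [mul_div_cancel_right₀ _ hlam.ne'] at h7
    have e4 : excessCount z (t * size M B) (g σ s (a, b) i) =
        exc z (t * lam κ (Real.log B)) (m3 a b (perm σ i)) := by
      rw [e1]
      unfold excessCount exc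
      rw [g_abs]
    rw [e4, e2, e3]
    refine h7.trans ?_
    exact mul_le_mul_of_nonneg_right (by linarith) (s1_nonneg _ _)

open Pool.Agent.Run7.h585.NF Pool.Agent.Run7.h585.NF.RatB in
/-- **The typical exceptional triples.** Let `1/3 < M < 1/2` and `ε > 0`. There are `δ > 0` and `B₀` such that, for
`B ≥ B₀`, the set of the exceptional triples is finite and all but at most the proportion
`exp (-δ √(log B / log log B))` of its elements are typical. -/
theorem result : ∀ M ε : ℝ, 1 / 3 < M → M < 1 / 2 → 0 < ε → ∃ δ B₀ : ℝ, 0 < δ ∧ ∀ B : ℝ, B₀ ≤ B →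
    (Exceptions M B).Finite ∧
      (({x | x ∈ Exceptions M B ∧ ¬ Typical M ε B x} : Set (Fin 3 → ℤ)).ncard : ℝ) ≤
        Real.exp (-(δ * √(Real.log B / Real.log (Real.log B)))) * (Exceptions M B).ncard := by
  classical
  intro M ε hM1 hM2 hε
  have hM0 : 0 < M := by linarith
  obtain ⟨κ, hκd⟩ : ∃ κ : ℝ, κ = 3 - 1 / M := ⟨_, rfl⟩
  have hκ : 0 < κ := by
    rw [hκd, sub_pos, div_lt_iff₀ hM0]
    linarith
  have hκ1 : κ < 1 := by
    have : 2 < 1 / M := by
      rw [lt_div_iff₀ hM0]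
      linarith
    rw [hκd]
    linarith
  have hloss : 0 ≤ Pool.Agent.H691R3.lossK ℚ := by
    have hb := (Lin.w3 (K := ℚ) (t := 1) ⟨one_ne_zero, by norm_num⟩).H3
    linarith [hb.1, hb.2]
  obtain ⟨δ, X₀, hδ, hX₀, h⟩ := prop_natR κ 0 hκ hκ1 le_rfl (fun X x => ¬ Anat κ (ε / 4) X x)
    (rare_anat κ (0 + 3 * Pool.Agent.H691R3.lossK ℚ) (ε / 4) hκ hκ1 (by positivity) (by positivity))
  obtain ⟨X₂, hX₂⟩ := Filter.eventually_atTop.1 (s1_large κ (2 * Real.log 6 / δ) hκ)
  refine ⟨δ / 2 * √(κ * 1 / 3), Real.exp (max (max X₀ X₂) (2 * Real.log 2 / ε)), by positivity,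
    fun B hBB => ?_⟩
  have hB : 0 < B := (Real.exp_pos _).trans_le hBB
  have hLm : max (max X₀ X₂) (2 * Real.log 2 / ε) ≤ Real.log B := (Real.le_log_iff_exp_le hB).2 hBB
  have hL : X₀ ≤ Real.log B := ((le_max_left _ _).trans (le_max_left _ _)).trans hLm
  have hL2 : X₂ ≤ Real.log B := ((le_max_right _ _).trans (le_max_left _ _)).trans hLm
  have hLε : 2 * Real.log 2 / ε ≤ Real.log B := (le_max_right _ _).trans hLm
  have hL3 : 3 ≤ Real.log B := hX₀.trans hL
  -- the pairs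
  obtain ⟨S, hS⟩ : ∃ S : Set (ℕ × ℕ), S = {p | 0 < p.1 ∧ 0 < p.2 ∧ Nat.Coprime p.1 p.2 ∧
    ((p.1 + p.2 : ℕ) : ℝ) ≤ B ∧ (RatB.rad (p.1 * p.2 * (p.1 + p.2)) : ℝ) ^ M ≤
      ((p.1 + p.2 : ℕ) : ℝ)} := ⟨_, rfl⟩
  have hiff : ∀ a b : ℕ, 0 < a → 0 < b →
      ((RatB.rad (a * b * (a + b)) : ℝ) ^ M ≤ ((a + b : ℕ) : ℝ) ↔
      Real.log (RatB.rad (a * b * (a + b))) ≤ (3 - κ) * Real.log ((a + b : ℕ) : ℝ)) := by
    intro a b ha hb
    have h1 : (0 : ℝ) < RatB.rad (a * b * (a + b)) := by exact_mod_cast rad_pos _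
    have h2 : (0 : ℝ) < ((a + b : ℕ) : ℝ) := by
      have : 0 < a + b := by omega
      exact_mod_cast this
    have e : 3 - κ = 1 / M := by rw [hκd]; ring
    rw [e, ← Real.log_le_log_iff (Real.rpow_pos_of_pos h1 M) h2, Real.log_rpow h1,
      one_div, inv_mul_eq_div, le_div_iff₀ hM0, mul_comm]
  obtain ⟨hfin, hbad⟩ := h (Real.log B) hL S (by
    intro a b ha hb hab h1 h2
    have hc : (0 : ℝ) < ((a + b : ℕ) : ℝ) := by
      have : 0 < a + b := by omega
      exact_mod_cast this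
    rw [hS]
    exact ⟨ha, hb, hab, (Real.log_le_log_iff hc hB).1 h1, (hiff a b ha hb).2 h2⟩) (by
    rintro ⟨a, b⟩ hp
    rw [hS] at hp
    obtain ⟨ha, hb, hab, h1, h2⟩ := hp
    have hc : (0 : ℝ) < ((a + b : ℕ) : ℝ) := by
      have : 0 < a + b := Nat.add_pos_left ha b
      exact_mod_cast this
    refine ⟨ha, hb, hab, (Real.log_le_log_iff hc hB).2 h1, ?_⟩
    rw [add_zero]
    exact (hiff a b ha hb).1 h2)
  -- membership
  have hmem : ∀ (σ : Fin 3) (s : Bool) (p : ℕ × ℕ), 0 < p.1 → 0 < p.2 → Nat.Coprime p.1 p.2 →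
      g σ s p ∈ Exceptions M B → p ∈ S := by
    intro σ s p h1 h2 h3 h4
    obtain ⟨h5, h6, h7⟩ := h4
    rw [g_height] at h6 h7
    have e : TypicalTriples.rad (∏ i, g σ s p i) = RatB.rad (p.1 * p.2 * (p.1 + p.2)) := by
      unfold TypicalTriples.rad RatB.rad
      rw [g_prod]
    rw [e] at h7
    rw [hS]
    exact ⟨h1, h2, h3, h6, h7⟩
  have hmem' : ∀ p ∈ S, g 0 true p ∈ Exceptions M B := by
    intro p hp
    rw [hS] at hp
    obtain ⟨h1, h2, h3, h4, h5⟩ := hp
    refine ⟨g_adm h1 h2 h3, ?_, ?_⟩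
    · rw [g_height]
      exact h4
    · have e : TypicalTriples.rad (∏ i, g 0 true p i) = RatB.rad (p.1 * p.2 * (p.1 + p.2)) := by
        unfold TypicalTriples.rad RatB.rad
        rw [g_prod]
      rw [e, g_height]
      exact h5
  obtain ⟨T, hT⟩ : ∃ T : Set (ℕ × ℕ), T = {p | p ∈ S ∧ ¬ AnatN κ (ε / 4) (Real.log B) p.1 p.2} :=
    ⟨_, rfl⟩
  have hTS : T ⊆ S := by rw [hT]; exact fun p hp => hp.1
  have hTfin : T.Finite := hfin.subset hTS
  have hSspec : ∀ p ∈ S, 0 < p.1 ∧ 0 < p.2 ∧ Nat.Coprime p.1 p.2 := by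
    intro p hp
    rw [hS] at hp
    exact ⟨hp.1, hp.2.1, hp.2.2.1⟩
  have hcover : ∀ U : Set (ℕ × ℕ), ∀ V : Set (Fin 3 → ℤ), U.Finite →
      (∀ x ∈ V, ∃ (σ : Fin 3) (s : Bool), ∃ p ∈ U, g σ s p = x) →
      V.Finite ∧ V.ncard ≤ 6 * U.ncard := by
    intro U V hU hV
    have hsub : V ⊆ ⋃ q : Fin 3 × Bool, g q.1 q.2 '' U := by
      intro x hx
      obtain ⟨σ, s, p, hp, e⟩ := hV x hx
      rw [Set.mem_iUnion]
      exact ⟨(σ, s), p, hp, e⟩
    have hf : (⋃ q : Fin 3 × Bool, g q.1 q.2 '' U).Finite := Set.finite_iUnion fun q => hU.image _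
    refine ⟨hf.subset hsub, (Set.ncard_le_ncard hsub hf).trans ?_⟩
    have h1 : (⋃ q : Fin 3 × Bool, g q.1 q.2 '' U) =
        ⋃ q ∈ (Finset.univ : Finset (Fin 3 × Bool)), g q.1 q.2 '' U := by simp
    rw [h1]
    refine (Finset.set_ncard_biUnion_le _ _).trans ?_
    calc ∑ q : Fin 3 × Bool, (g q.1 q.2 '' U).ncard ≤ ∑ _q : Fin 3 × Bool, U.ncard :=
          Finset.sum_le_sum fun q _ => Set.ncard_image_le hU
      _ = 6 * U.ncard := by
          rw [Finset.sum_const, Finset.card_univ, smul_eq_mul]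
          rfl
  obtain ⟨hEfin, -⟩ := hcover S (Exceptions M B) hfin (by
    intro x hx
    obtain ⟨σ, s, p, h1, h2, h3, e⟩ := exists_g hx.1
    exact ⟨σ, s, p, hmem σ s p h1 h2 h3 (by rw [e]; exact hx), e⟩)
  refine ⟨hEfin, ?_⟩
  obtain ⟨-, hbx⟩ := hcover T {x | x ∈ Exceptions M B ∧ ¬ Typical M ε B x} hTfin (by
    rintro x ⟨hx, hnt⟩
    obtain ⟨σ, s, p, h1, h2, h3, e⟩ := exists_g hx.1
    refine ⟨σ, s, p, ?_, e⟩
    rw [hT]
    refine ⟨hmem σ s p h1 h2 h3 (by rw [e]; exact hx), fun hA => hnt ?_⟩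
    rw [← e]
    exact typ_of hκd hκ hB hL3 hε hLε h1 h2 hA σ s)
  have hSE : S.ncard ≤ (Exceptions M B).ncard := by
    refine Set.ncard_le_ncard_of_injOn (g 0 true) hmem' ?_ hEfin
    intro p _ q _ h
    have h1 := congrFun h 0
    have h2 := congrFun h 1
    have h3 : 1 * (p.1 : ℤ) = 1 * (q.1 : ℤ) := h1
    have h4 : 1 * (p.2 : ℤ) = 1 * (q.2 : ℤ) := h2
    exact Prod.ext (by omega) (by omega)
  have hTb := hbad T hTS (by
    intro p hp hA
    rw [hT] at hp
    obtain ⟨h1, h2, h3⟩ := hSspec p hp.1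
    exact hp.2 (anatN_of h1 h2 h3 hA))
  have h8 := hX₂ (Real.log B) hL2
  rw [div_le_iff₀ hδ] at h8
  have hs := s1_ge (κ := κ) (d := 1) hκ.le le_rfl hL3 (by linarith)
  rw [one_mul] at hs
  have hbx' : (({x | x ∈ Exceptions M B ∧ ¬ Typical M ε B x} : Set (Fin 3 → ℤ)).ncard : ℝ) ≤
      6 * (T.ncard : ℝ) := by exact_mod_cast hbx
  have hSE' : (S.ncard : ℝ) ≤ (Exceptions M B).ncard := by exact_mod_cast hSE
  calc (({x | x ∈ Exceptions M B ∧ ¬ Typical M ε B x} : Set (Fin 3 → ℤ)).ncard : ℝ)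
      ≤ 6 * (T.ncard : ℝ) := hbx'
    _ ≤ 6 * (Real.exp (-(δ * s1 κ (Real.log B))) * S.ncard) := by linarith
    _ ≤ 6 * (Real.exp (-(δ * s1 κ (Real.log B))) * (Exceptions M B).ncard) := by
        have := mul_le_mul_of_nonneg_left hSE' (Real.exp_pos (-(δ * s1 κ (Real.log B)))).le
        linarith
    _ = Real.exp (Real.log 6 - δ * s1 κ (Real.log B)) * (Exceptions M B).ncard := by
        rw [sub_eq_add_neg, Real.exp_add, Real.exp_log (by norm_num : (0 : ℝ) < 6)]
        ring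
    _ ≤ _ := by
        apply mul_le_mul_of_nonneg_right _ (Nat.cast_nonneg _)
        apply Real.exp_le_exp.2
        have h9 := mul_le_mul_of_nonneg_left hs (by positivity : 0 ≤ δ / 2)
        linarith

end Pool.Agent.Results.MP_a95293_nt.TypicalTriples
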